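import Mathlib

/-!
Generalities on real matrices with complex eigenvalues, used for the counterexample
to `ρ((I - c eᵀ) P) ≤ 1`.
-/

namespace Pool.Agent.V11304.RC

open Matrix Finset

/-- `μ` is an eigenvalue of the complex square matrix `M`. -/
def IsEig {n : ℕ} (M : Matrix (Fin n) (Fin n) ℂ) (μ : ℂ) : Prop :=
  ∃ v : Fin n → ℂ, v ≠ 0 ∧ M *ᵥ v = μ • v

/-- The real matrix `P` viewed as a complex matrix. -/
noncomputable def cx {n : ℕ} (P : Matrix (Fin n) (Fin n) ℝ) : Matrix (Fin n) (Fin n) ℂ :=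
  P.map (fun x : ℝ => (x : ℂ))

theorem isEig_iff_det {n : ℕ} (M : Matrix (Fin n) (Fin n) ℂ) (μ : ℂ) :
    IsEig M μ ↔ (M - μ • (1 : Matrix (Fin n) (Fin n) ℂ)).det = 0 := by
  rw [← Matrix.exists_mulVec_eq_zero_iff]
  unfold IsEig
  constructor
  · rintro ⟨v, hv, h⟩
    refine ⟨v, hv, ?_⟩
    rw [Matrix.sub_mulVec, h, Matrix.smul_mulVec, Matrix.one_mulVec, sub_self]
  · rintro ⟨v, hv, h⟩
    refine ⟨v, hv, ?_⟩
    rw [Matrix.sub_mulVec, Matrix.smul_mulVec, Matrix.one_mulVec] at h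
    exact sub_eq_zero.mp h

theorem isEig_of_transpose {n : ℕ} (M : Matrix (Fin n) (Fin n) ℂ) (μ : ℂ)
    (h : IsEig Mᵀ μ) : IsEig M μ := by
  rw [isEig_iff_det] at h ⊢
  rw [← Matrix.det_transpose]
  rw [Matrix.transpose_sub, Matrix.transpose_smul, Matrix.transpose_one]
  exact h

/-- Perron bound: a nonnegative matrix with a positive fixed vector has no eigenvalue
of modulus greater than one. -/
theorem perron {n : ℕ} (P : Matrix (Fin n) (Fin n) ℝ) (u : Fin n → ℝ)
    (hP : ∀ i j, 0 ≤ P i j) (hu : ∀ i, 0 < u i) (hPu : P *ᵥ u = u) (μ : ℂ)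
    (h : IsEig (cx P) μ) : ‖μ‖ ≤ 1 := by
  obtain ⟨v, hv, hev⟩ := h
  have hne : Nonempty (Fin n) := by
    by_contra hcon
    rw [not_nonempty_iff] at hcon
    exact hv (Subsingleton.elim _ _)
  obtain ⟨k, hk⟩ := Finite.exists_max (fun i => ‖v i‖ / u i)
  have hm : 0 < ‖v k‖ / u k := by
    obtain ⟨i, hi⟩ : ∃ i, v i ≠ 0 := by
      by_contra hcon
      push Not at hcon
      exact hv (funext hcon)
    have h1 : 0 < ‖v i‖ / u i := div_pos (norm_pos_iff.mpr hi) (hu i)
    exact lt_of_lt_of_le h1 (hk i)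
  have hvk : 0 < ‖v k‖ := by
    have := (div_pos_iff_of_pos_right (hu k)).mp hm
    exact this
  have h1 : ‖μ‖ * ‖v k‖ ≤ ‖v k‖ := by
    have h2 : μ * v k = ∑ j, (P k j : ℂ) * v j := by
      have := congrFun hev k
      simp only [Pi.smul_apply, smul_eq_mul] at this
      rw [← this]
      rfl
    rw [← norm_mul, h2]
    calc ‖∑ j, (P k j : ℂ) * v j‖ ≤ ∑ j, ‖(P k j : ℂ) * v j‖ := norm_sum_le _ _
      _ ≤ ∑ j, P k j * ((‖v k‖ / u k) * u j) := by
          apply Finset.sum_le_sum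
          intro j _
          rw [norm_mul, Complex.norm_real, Real.norm_of_nonneg (hP k j)]
          apply mul_le_mul_of_nonneg_left _ (hP k j)
          have := hk j
          rwa [div_le_iff₀ (hu j)] at this
      _ = (‖v k‖ / u k) * ∑ j, P k j * u j := by
          rw [Finset.mul_sum]
          apply Finset.sum_congr rfl
          intro j _
          ring
      _ = ‖v k‖ := by
          have h3 : ∑ j, P k j * u j = u k := congrFun hPu k
          rw [h3]
          field_simp [(hu k).ne']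
  nlinarith [norm_nonneg μ]

theorem isEig_one {n : ℕ} (P : Matrix (Fin n) (Fin n) ℝ) (u : Fin n → ℝ)
    (hu : u ≠ 0) (hPu : P *ᵥ u = u) : IsEig (cx P) 1 := by
  refine ⟨fun i => (u i : ℂ), ?_, ?_⟩
  · intro h
    apply hu
    funext i
    have := congrFun h i
    simpa using this
  · funext i
    have h3 : ∑ j, P i j * u j = u i := congrFun hPu i
    simp only [one_smul]
    rw [← h3]
    push_cast
    rfl

/-- For a real symmetric matrix `P` and `λ = 1 + i b`, the resolvent estimate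
`b² ‖w‖² ≤ ‖(λ - P) w‖²`. -/
theorem resolvent {n : ℕ} (P : Matrix (Fin n) (Fin n) ℝ) (hs : ∀ i j, P i j = P j i)
    (b : ℝ) (w r : Fin n → ℂ)
    (h : ∀ i, (1 + (b : ℂ) * Complex.I) * w i - ∑ j, (P i j : ℂ) * w j = r i) :
    b ^ 2 * ∑ i, ‖w i‖ ^ 2 ≤ ∑ i, ‖r i‖ ^ 2 := by
  have hreal : (∑ i, (starRingEnd ℂ) (w i) * ∑ j, (P i j : ℂ) * w j).im = 0 := by
    have h1 : (starRingEnd ℂ) (∑ i, (starRingEnd ℂ) (w i) * ∑ j, (P i j : ℂ) * w j)
        = ∑ i, (starRingEnd ℂ) (w i) * ∑ j, (P i j : ℂ) * w j := by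
      simp only [map_sum, map_mul, Complex.conj_conj, Complex.conj_ofReal, Finset.mul_sum]
      rw [Finset.sum_comm]
      apply Finset.sum_congr rfl
      intro i _
      apply Finset.sum_congr rfl
      intro j _
      rw [hs i j]
      ring
    exact Complex.conj_eq_iff_im.mp h1
  have h2 : (∑ i, (starRingEnd ℂ) (w i) * r i).im = b * ∑ i, ‖w i‖ ^ 2 := by
    have h3 : ∑ i, (starRingEnd ℂ) (w i) * r i
        = (1 + (b : ℂ) * Complex.I) * ((∑ i, ‖w i‖ ^ 2 : ℝ) : ℂ)
          - ∑ i, (starRingEnd ℂ) (w i) * ∑ j, (P i j : ℂ) * w j := by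
      rw [Complex.ofReal_sum, Finset.mul_sum, ← Finset.sum_sub_distrib]
      apply Finset.sum_congr rfl
      intro i _
      rw [← h i]
      have h4 : (starRingEnd ℂ) (w i) * w i = ((‖w i‖ ^ 2 : ℝ) : ℂ) := by
        rw [mul_comm, Complex.mul_conj, Complex.normSq_eq_norm_sq]
      rw [← h4]
      ring
    rw [h3, Complex.sub_im, hreal, sub_zero]
    generalize (∑ i, ‖w i‖ ^ 2) = S
    simp [Complex.mul_im, Complex.add_im, Complex.add_re]
  have h5 : b * ∑ i, ‖w i‖ ^ 2 = (∑ i, (starRingEnd ℂ) (w i) * r i).im := h2.symm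
  have h6 : |(∑ i, (starRingEnd ℂ) (w i) * r i).im| ≤ ∑ i, ‖w i‖ * ‖r i‖ := by
    refine le_trans (Complex.abs_im_le_norm _) ?_
    refine le_trans (norm_sum_le _ _) ?_
    apply Finset.sum_le_sum
    intro i _
    rw [norm_mul, RCLike.norm_conj]
  have h7 : (∑ i, ‖w i‖ * ‖r i‖) ^ 2 ≤ (∑ i, ‖w i‖ ^ 2) * ∑ i, ‖r i‖ ^ 2 :=
    Finset.sum_mul_sq_le_sq_mul_sq _ _ _
  have hW : 0 ≤ ∑ i, ‖w i‖ ^ 2 := Finset.sum_nonneg (fun i _ => by positivity)
  have hR : 0 ≤ ∑ i, ‖r i‖ ^ 2 := Finset.sum_nonneg (fun i _ => by positivity)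
  have h8 : (b * ∑ i, ‖w i‖ ^ 2) ^ 2 ≤ (∑ i, ‖w i‖ ^ 2) * ∑ i, ‖r i‖ ^ 2 := by
    rw [h5]
    calc ((∑ i, (starRingEnd ℂ) (w i) * r i).im) ^ 2
        = |(∑ i, (starRingEnd ℂ) (w i) * r i).im| ^ 2 := (sq_abs _).symm
      _ ≤ (∑ i, ‖w i‖ * ‖r i‖) ^ 2 := by
          apply pow_le_pow_left₀ (abs_nonneg _) h6
      _ ≤ _ := h7
  rcases hW.eq_or_lt with h0 | hpos
  · rw [← h0]
    simpa using hR
  · have h9 : (b ^ 2 * ∑ i, ‖w i‖ ^ 2) * (∑ i, ‖w i‖ ^ 2) ≤ (∑ i, ‖r i‖ ^ 2) * ∑ i, ‖w i‖ ^ 2 := by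
      nlinarith [h8]
    exact le_of_mul_le_mul_right h9 hpos

/-- The algebraic core: if `(λ - P) z = b e` and a probability vector `c` is orthogonal to `z`,
then `λ` is an eigenvalue of `(I - c eᵀ) P`. -/
theorem eig_of_hull {n : ℕ} (P : Matrix (Fin n) (Fin n) ℝ) (hs : P.IsSymm)
    (b : ℝ) (hb : b ≠ 0) (z : Fin n → ℂ) (c : Fin n → ℝ) (hc1 : ∑ i, c i = 1)
    (hcz : ∑ i, (c i : ℂ) * z i = 0)
    (h : ∀ i, (1 + (b : ℂ) * Complex.I) * z i - ∑ j, (P i j : ℂ) * z j = (b : ℂ)) :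
    IsEig (cx ((1 - vecMulVec c 1) * P)) (1 + (b : ℂ) * Complex.I) := by
  set l : ℂ := 1 + (b : ℂ) * Complex.I with hl
  have hl0 : l ≠ 0 := by
    intro h0
    have := congrArg Complex.re h0
    simp [hl] at this
  apply isEig_of_transpose
  -- the vector `x = P z = l z - b e`
  refine ⟨fun i => l * z i - b, ?_, ?_⟩
  · intro h0
    have h1 : ∑ i, (c i : ℂ) * (l * z i - b) = 0 := by
      apply Finset.sum_eq_zero
      intro i _
      have := congrFun h0 i
      simp only [Pi.zero_apply] at this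
      rw [this, mul_zero]
    have h2 : ∑ i, (c i : ℂ) * (l * z i - b) = l * (∑ i, (c i : ℂ) * z i) - b * ∑ i, (c i : ℂ) := by
      rw [Finset.mul_sum, Finset.mul_sum, ← Finset.sum_sub_distrib]
      apply Finset.sum_congr rfl
      intro i _
      ring
    rw [h2, hcz] at h1
    have h3 : (∑ i, (c i : ℂ)) = 1 := by
      rw [← Complex.ofReal_sum, hc1, Complex.ofReal_one]
    rw [h3] at h1
    apply hb
    have : (b : ℂ) = 0 := by linear_combination -h1
    exact_mod_cast this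
  · have hx : ∀ i, ∑ j, (P i j : ℂ) * z j = l * z i - b := by
      intro i
      linear_combination -(h i)
    have hcx : ∑ i, (c i : ℂ) * (l * z i - b) = -b := by
      have h2 : ∑ i, (c i : ℂ) * (l * z i - b)
          = l * (∑ i, (c i : ℂ) * z i) - b * ∑ i, (c i : ℂ) := by
        rw [Finset.mul_sum, Finset.mul_sum, ← Finset.sum_sub_distrib]
        apply Finset.sum_congr rfl
        intro i _
        ring
      have h3 : (∑ i, (c i : ℂ)) = 1 := by
        rw [← Complex.ofReal_sum, hc1, Complex.ofReal_one]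
      rw [h2, hcz, h3]
      ring
    funext i
    simp only [Pi.smul_apply, smul_eq_mul, mulVec, dotProduct, cx, transpose_apply, map_apply]
    -- entries of the matrix
    have hent : ∀ j : Fin n, ((((1 - vecMulVec c (1 : Fin n → ℝ)) * P : Matrix (Fin n) (Fin n) ℝ) j i : ℝ) : ℂ)
        = (P j i : ℂ) - (c j : ℂ) * ∑ k, (P k i : ℂ) := by
      intro j
      rw [Matrix.sub_mul, Matrix.one_mul, Matrix.sub_apply, Matrix.mul_apply]
      push_cast
      congr 1
      rw [Finset.mul_sum]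
      apply Finset.sum_congr rfl
      intro k _
      simp [vecMulVec]
    have hsym : ∀ j, (P j i : ℂ) = (P i j : ℂ) := by
      intro j
      rw [hs.apply i j]
    calc ∑ j, ((((1 - vecMulVec c (1 : Fin n → ℝ)) * P : Matrix (Fin n) (Fin n) ℝ) j i : ℝ) : ℂ)
          * (l * z j - b)
        = ∑ j, ((P i j : ℂ) * (l * z j - b)
            - (∑ k, (P i k : ℂ)) * ((c j : ℂ) * (l * z j - b))) := by
          apply Finset.sum_congr rfl
          intro j _
          rw [hent j, hsym j]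
          rw [Finset.sum_congr rfl (fun k _ => hsym k)]
          ring
      _ = ∑ j, (P i j : ℂ) * (l * z j - b)
            - (∑ k, (P i k : ℂ)) * ∑ j, ((c j : ℂ) * (l * z j - b)) := by
          rw [Finset.sum_sub_distrib, Finset.mul_sum]
      _ = ∑ j, (P i j : ℂ) * (l * z j - b) + b * ∑ k, (P i k : ℂ) := by
          rw [hcx]; ring
      _ = l * ∑ j, (P i j : ℂ) * z j := by
          rw [Finset.mul_sum, Finset.mul_sum, ← Finset.sum_add_distrib]
          apply Finset.sum_congr rfl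
          intro j _
          ring
      _ = l * (l * z i - b) := by rw [hx i]

end Pool.Agent.V11304.RC
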