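import Pool.Agent.V11304.RC.Basic

/-!
The concrete path: nodes `0, 1, 2` followed by a cluster of `1000` equal nodes joined by
very large conductances.
-/

namespace Pool.Agent.V11304.RC

open Matrix Finset

/-- Perron vector of the path. -/
noncomputable def u : ℕ → ℝ
  | 0 => 1 / 10
  | 1 => 28
  | 2 => 30
  | _ => 1

/-- Conductance of the edge between `k` and `k+1`. -/
noncomputable def g : ℕ → ℝ
  | 0 => 1
  | 1 => 270
  | 2 => 300
  | _ => 10 ^ 20

/-- The small parameter. -/
noncomputable def b : ℝ := 1 / 10 ^ 21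

/-- Number of nodes. -/
abbrev nn : ℕ := 1003

noncomputable def gl : ℕ → ℝ
  | 0 => 0
  | (k + 1) => g k

noncomputable def gr (k : ℕ) : ℝ := if k + 1 < nn then g k else 0

noncomputable def A (i : ℕ) : ℝ := 1 - b * (gl i + gr i) / (u i) ^ 2

noncomputable def Bd (i : ℕ) : ℝ := b * g i / (u i * u (i + 1))

/-- The entries of the tridiagonal matrix. -/
noncomputable def p (i j : ℕ) : ℝ :=
  (if j = i then A i else 0) + (if j = i + 1 then Bd i else 0) + (if i = j + 1 then Bd j else 0)

noncomputable def P : Matrix (Fin nn) (Fin nn) ℝ := Matrix.of fun i j => p i j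

theorem u_pos (k : ℕ) : 0 < u k := by
  rcases k with _ | _ | _ | k <;> simp [u]

theorem g_pos (k : ℕ) : 0 < g k := by
  rcases k with _ | _ | _ | k <;> simp [g]

theorem g_le (k : ℕ) : g k ≤ 10 ^ 20 := by
  rcases k with _ | _ | _ | k <;> simp [g] <;> norm_num

theorem b_pos : 0 < b := by unfold b; positivity

theorem sum_tri (i : ℕ) (hi : i < nn) (f : ℕ → ℂ) :
    ∑ j : Fin nn, ((p i j : ℝ) : ℂ) * f j
      = (A i : ℂ) * f i + (if i + 1 < nn then (Bd i : ℂ) * f (i + 1) else 0)
        + (match i with
            | 0 => 0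
            | (k + 1) => (Bd k : ℂ) * f k) := by
  rw [Fin.sum_univ_eq_sum_range (fun j => ((p i j : ℝ) : ℂ) * f j) nn]
  have h1 : ∀ j ∈ range nn, ((p i j : ℝ) : ℂ) * f j
      = (if j = i then (A i : ℂ) * f i else 0) + (if j = i + 1 then (Bd i : ℂ) * f (i + 1) else 0)
        + (if i = j + 1 then (Bd j : ℂ) * f j else 0) := by
    intro j _
    unfold p
    push_cast
    rw [add_mul, add_mul]
    congr 1
    · congr 1
      · split_ifs with h
        · rw [h]
        · simp
      · split_ifs with h
        · rw [h]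
        · simp
    · split_ifs with h
      · rfl
      · simp
  rw [Finset.sum_congr rfl h1, Finset.sum_add_distrib, Finset.sum_add_distrib]
  refine congrArg₂ (· + ·) (congrArg₂ (· + ·) ?_ ?_) ?_
  · rw [Finset.sum_ite_eq' (range nn) i]
    simp only [Finset.mem_range, if_pos hi]
  · rw [Finset.sum_ite_eq' (range nn) (i + 1)]
    simp only [Finset.mem_range]
  · rcases i with _ | k
    · apply Finset.sum_eq_zero
      intro j _
      rw [if_neg (by omega)]
    · have h2 : ∀ j ∈ range nn, (if k + 1 = j + 1 then (Bd j : ℂ) * f j else 0)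
          = (if j = k then (Bd k : ℂ) * f k else 0) := by
        intro j _
        by_cases h : j = k
        · rw [h]; simp
        · rw [if_neg h, if_neg (by omega)]
      rw [Finset.sum_congr rfl h2, Finset.sum_ite_eq' (range nn) k]
      have : k < nn := by omega
      simp only [Finset.mem_range, if_pos this]

theorem P_symm : P.IsSymm := by
  ext i j
  simp only [P, transpose_apply, of_apply, p]
  by_cases h : (i : ℕ) = j
  · rw [h]
  · rw [if_neg h, if_neg (fun h' : (j : ℕ) = i => h h'.symm)]
    ring

/-- The Laplacian form of the action of `P` on vectors of the form `u y`. -/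
theorem P_act (i : ℕ) (hi : i < nn) (y : ℕ → ℂ) :
    ∑ j : Fin nn, ((p i j : ℝ) : ℂ) * ((u j : ℂ) * y j)
      = (u i : ℂ) * y i - (b : ℂ) / (u i : ℂ) *
        ((gr i : ℂ) * (y i - y (i + 1)) + (gl i : ℂ) * (y i - y (i - 1))) := by
  rw [sum_tri i hi (fun j => (u j : ℂ) * y j)]
  have hu : (u i : ℂ) ≠ 0 := by exact_mod_cast (u_pos i).ne'
  have hu1 : (u (i + 1) : ℂ) ≠ 0 := by exact_mod_cast (u_pos (i + 1)).ne'
  rcases i with _ | k
  · simp only [gl, A, Bd]
    by_cases h : 0 + 1 < nn
    · rw [if_pos h]
      have : gr 0 = g 0 := by unfold gr; rw [if_pos h]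
      rw [this]
      push_cast
      field_simp
      ring
    · exact absurd (by norm_num) h
  · have hu0 : (u k : ℂ) ≠ 0 := by exact_mod_cast (u_pos k).ne'
    simp only [gl, A, Bd, Nat.add_sub_cancel]
    by_cases h : k + 1 + 1 < nn
    · rw [if_pos h]
      have : gr (k + 1) = g (k + 1) := by unfold gr; rw [if_pos h]
      rw [this]
      push_cast
      field_simp
      ring
    · rw [if_neg h]
      have : gr (k + 1) = 0 := by unfold gr; rw [if_neg h]
      rw [this]
      push_cast
      field_simp
      ring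

theorem P_mulVec_u : P *ᵥ (fun i : Fin nn => u i) = fun i : Fin nn => u i := by
  funext i
  have h := P_act i i.2 (fun _ => 1)
  simp only [mul_one, sub_self, mul_zero, add_zero, sub_zero] at h
  have h2 : ((∑ j : Fin nn, p i j * u j : ℝ) : ℂ) = ((u i : ℝ) : ℂ) := by
    push_cast
    exact h
  exact_mod_cast h2

theorem gl_nonneg (k : ℕ) : 0 ≤ gl k := by
  rcases k with _ | k
  · simp [gl]
  · exact (g_pos k).le

theorem gr_nonneg (k : ℕ) : 0 ≤ gr k := by
  unfold gr
  split_ifs
  · exact (g_pos k).le
  · exact le_refl _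

theorem A_pos (i : ℕ) : 0 < A i := by
  unfold A
  have key : b * (gl i + gr i) / (u i) ^ 2 < 1 := by
    rcases i with _ | _ | _ | i
    · have : gr 0 ≤ 1 := by unfold gr; split_ifs <;> simp [g]
      have h2 := gr_nonneg 0
      simp only [gl, u, b]
      rw [div_lt_one (by norm_num)]
      nlinarith
    · have : gr 1 ≤ 270 := by unfold gr; split_ifs <;> simp [g]
      have h2 := gr_nonneg 1
      simp only [gl, g, u, b]
      rw [div_lt_one (by norm_num)]
      simp only [zero_add]
      nlinarith
    · have : gr 2 ≤ 300 := by unfold gr; split_ifs <;> simp [g]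
      have h2 := gr_nonneg 2
      simp only [gl, g, u, b]
      rw [div_lt_one (by norm_num)]
      simp only [zero_add, Nat.reduceAdd]
      nlinarith
    · have h1 : gr (i + 3) ≤ 10 ^ 20 := by
        unfold gr
        split_ifs
        · exact g_le _
        · positivity
      have h2 : gl (i + 3) ≤ 10 ^ 20 := g_le (i + 2)
      have h3 := gr_nonneg (i + 3)
      have h4 := gl_nonneg (i + 3)
      have hu : u (i + 3) = 1 := rfl
      show b * (gl (i + 3) + gr (i + 3)) / (u (i + 3)) ^ 2 < 1
      rw [hu, one_pow, div_one]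
      unfold b
      rw [div_mul_eq_mul_div, div_lt_one (by positivity)]
      nlinarith
  linarith

theorem Bd_pos (i : ℕ) : 0 < Bd i := by
  unfold Bd
  have := b_pos
  have := g_pos i
  have := u_pos i
  have := u_pos (i + 1)
  positivity

theorem Bd_le (i : ℕ) : Bd i ≤ 1 / 2 := by
  unfold Bd b
  rcases i with _ | _ | _ | i
  · simp only [g, u]; norm_num
  · simp only [g, u]; norm_num
  · simp only [g, u]; norm_num
  · simp only [g, u]; norm_num

end Pool.Agent.V11304.RC
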