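import Pool.Agent.V11304.RC.Path

namespace Pool.Agent.V11304.RC

open Matrix Finset

noncomputable def y0 : ℂ := ⟨39086200105200 / 1168082323608353, 622288444270 / 1168082323608353⟩
noncomputable def y1 : ℂ :=
  ⟨-77728255140078 / 1168082323608353, 1013150445322 / 1168082323608353⟩
noncomputable def y2 : ℂ :=
  ⟨-202237253160121 / 1168082323608353, -224685224250308 / 1168082323608353⟩
noncomputable def Y : ℂ :=
  ⟨242952089011929 / 1168082323608353, -1034525520956738 / 1168082323608353⟩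

/-- `1 - i Y`. -/
noncomputable def q : ℂ := 1 - Complex.I * Y

noncomputable def dl (m : ℕ) : ℂ := q * ((m : ℂ) * (1999 - m) / 2) / 10 ^ 20

/-- The approximate solution. -/
noncomputable def yh : ℕ → ℂ
  | 0 => y0
  | 1 => y1
  | 2 => y2
  | (m + 3) => Y + dl m

/-- The residual. -/
noncomputable def res : ℕ → ℂ
  | 0 => 0
  | 1 => 0
  | 2 => 0
  | (m + 3) => Complex.I * dl m

theorem eq0 : (y0 - y1) + Complex.I * (1 / 10) ^ 2 * y0 = 1 / 10 := by
  apply Complex.ext
  · simp [y0, y1, pow_two]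
    norm_num
  · simp [y0, y1, pow_two]
    norm_num

theorem eq1 : 270 * (y1 - y2) + 1 * (y1 - y0) + Complex.I * 28 ^ 2 * y1 = 28 := by
  apply Complex.ext
  · simp [y0, y1, y2, pow_two]
    norm_num
  · simp [y0, y1, y2, pow_two]
    norm_num

theorem eq2 : 300 * (y2 - Y) + 270 * (y2 - y1) + Complex.I * 30 ^ 2 * y2 = 30 := by
  apply Complex.ext
  · simp [Y, y1, y2, pow_two]
    norm_num
  · simp [Y, y1, y2, pow_two]
    norm_num

theorem eq3 : 300 * (Y - y2) = 1000 * q := by
  unfold q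
  apply Complex.ext
  · simp [Y, y2]
    norm_num
  · simp [Y, y2]
    norm_num

theorem lap (i : ℕ) (hi : i < nn) :
    (gr i : ℂ) * (yh i - yh (i + 1)) + (gl i : ℂ) * (yh i - yh (i - 1))
      + Complex.I * (u i : ℂ) ^ 2 * yh i = (u i : ℂ) + res i := by
  rcases i with _ | _ | _ | m
  · have h : gr 0 = 1 := by unfold gr; rw [if_pos (by norm_num)]; rfl
    rw [h]
    simp only [gl, yh, u, res]
    push_cast
    have := eq0
    linear_combination this
  · have h : gr 1 = 270 := by unfold gr; rw [if_pos (by norm_num)]; rfl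
    rw [show (0 + 1 : ℕ) = 1 from rfl, h]
    simp only [gl, yh, u, res, g]
    push_cast
    have := eq1
    linear_combination this
  · have h : gr 2 = 300 := by unfold gr; rw [if_pos (by norm_num)]; rfl
    rw [show (0 + 1 + 1 : ℕ) = 2 from rfl, h]
    have hy3 : yh 3 = Y := by
      show Y + dl 0 = Y
      simp [dl]
    show ((300 : ℝ) : ℂ) * (yh 2 - yh 3) + ((gl 2 : ℝ) : ℂ) * (yh 2 - yh 1)
      + Complex.I * ((u 2 : ℝ) : ℂ) ^ 2 * yh 2 = ((u 2 : ℝ) : ℂ) + res 2
    rw [hy3]
    simp only [gl, yh, u, res, g]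
    push_cast
    have := eq2
    linear_combination this
  · have hq : q = 1 - Complex.I * Y := rfl
    have hu : u (m + 3) = 1 := rfl
    show ((gr (m + 3) : ℝ) : ℂ) * (yh (m + 3) - yh (m + 4)) + ((gl (m + 3) : ℝ) : ℂ)
      * (yh (m + 3) - yh (m + 2)) + Complex.I * ((u (m + 3) : ℝ) : ℂ) ^ 2 * yh (m + 3)
        = ((u (m + 3) : ℝ) : ℂ) + res (m + 3)
    rw [hu]
    have e3 : yh (m + 3) = Y + dl m := rfl
    have e4 : yh (m + 4) = Y + dl (m + 1) := rfl
    have er : res (m + 3) = Complex.I * dl m := rfl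
    rw [e3, e4, er]
    rcases m with _ | k
    · have h : gr 3 = 10 ^ 20 := by unfold gr; rw [if_pos (by norm_num)]; rfl
      have h2 : gl 3 = 300 := rfl
      have h3 : yh 2 = y2 := rfl
      simp only [zero_add]
      rw [h, h2, h3]
      have := eq3
      unfold dl
      push_cast
      linear_combination this + hq
    · have h2 : gl (k + 4) = 10 ^ 20 := rfl
      have e2 : yh (k + 3) = Y + dl k := rfl
      show ((gr (k + 4) : ℝ) : ℂ) * _ + ((gl (k + 4) : ℝ) : ℂ) * (_ - yh (k + 3)) + _ = _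
      rw [h2, e2]
      by_cases hk : k + 4 + 1 < nn
      · have h : gr (k + 4) = 10 ^ 20 := by unfold gr; rw [if_pos hk]; rfl
        rw [h]
        unfold dl
        push_cast
        linear_combination hq
      · have h : gr (k + 4) = 0 := by unfold gr; rw [if_neg hk]
        have hk2 : k = 998 := by
          have : k + 4 < 1003 := by simpa using hi
          have : ¬ (k + 4 + 1 < 1003) := hk
          omega
        rw [h, hk2]
        unfold dl
        push_cast
        linear_combination hq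

theorem q_norm : ‖q‖ ≤ 1 := by
  have h : ‖q‖ ^ 2 ≤ 1 := by
    rw [← Complex.normSq_eq_norm_sq, Complex.normSq_apply]
    unfold q
    simp [Y]
    norm_num
  nlinarith [norm_nonneg q]

theorem res_norm (i : ℕ) (hi : i < nn) : ‖res i‖ ≤ 1 / 10 ^ 14 := by
  rcases i with _ | _ | _ | m
  · simp only [res, norm_zero]; positivity
  · simp only [res, norm_zero]; positivity
  · simp only [res, norm_zero]; positivity
  · show ‖Complex.I * dl m‖ ≤ _
    have hm : (m : ℝ) ≤ 999 := by
      have : m + 3 < 1003 := hi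
      exact_mod_cast (by omega : m ≤ 999)
    have hm0 : (0 : ℝ) ≤ m := Nat.cast_nonneg m
    have e : ((m : ℂ) * (1999 - m) / 2) = (((m : ℝ) * (1999 - m) / 2 : ℝ) : ℂ) := by push_cast; ring
    have e2 : ((10 : ℂ) ^ 20) = (((10 : ℝ) ^ 20 : ℝ) : ℂ) := by push_cast; ring
    unfold dl
    rw [norm_mul, Complex.norm_I, one_mul, norm_div, norm_mul, e, e2, Complex.norm_real,
      Complex.norm_real, Real.norm_of_nonneg (by nlinarith), Real.norm_of_nonneg (by positivity)]
    rw [div_le_iff₀ (by positivity)]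
    have h1 : (m : ℝ) * (1999 - m) / 2 ≤ 10 ^ 6 := by nlinarith
    have h2 : 0 ≤ (m : ℝ) * (1999 - m) / 2 := by nlinarith
    have h3 := q_norm
    have h4 := norm_nonneg q
    calc ‖q‖ * ((m : ℝ) * (1999 - m) / 2) ≤ 1 * 10 ^ 6 := mul_le_mul h3 h1 h2 (by norm_num)
      _ = 1 / 10 ^ 14 * 10 ^ 20 := by norm_num

/-- The shifted system is solvable, and its solution is close to `u yh`. -/
theorem exists_sol : ∃ z : Fin nn → ℂ,
    (∀ i : Fin nn, (1 + (b : ℂ) * Complex.I) * z i - ∑ j : Fin nn, ((P i j : ℝ) : ℂ) * z j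
      = (b : ℂ)) ∧ ∀ i : Fin nn, ‖z i - (u i : ℂ) * yh i‖ ≤ 1 / 10 ^ 12 := by
  have hb := b_pos
  have hnorm : 1 < ‖(1 + (b : ℂ) * Complex.I)‖ := by
    have h : 1 < ‖(1 + (b : ℂ) * Complex.I)‖ ^ 2 := by
      rw [← Complex.normSq_eq_norm_sq, Complex.normSq_apply]
      simp
      positivity
    nlinarith [norm_nonneg (1 + (b : ℂ) * Complex.I)]
  have hPnn : ∀ i j : Fin nn, 0 ≤ P i j := by
    intro i j
    show 0 ≤ p i j
    unfold p
    have h1 := (A_pos i).le
    have h2 := (Bd_pos i).le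
    have h3 := (Bd_pos j).le
    split_ifs <;> linarith
  have hnot : ¬ IsEig (cx P) (1 + (b : ℂ) * Complex.I) := by
    intro h
    have := perron P (fun i : Fin nn => u i) hPnn (fun i => u_pos i) P_mulVec_u _ h
    linarith
  rw [isEig_iff_det] at hnot
  set M := cx P - (1 + (b : ℂ) * Complex.I) • (1 : Matrix (Fin nn) (Fin nn) ℂ) with hM
  have hunit : IsUnit M.det := isUnit_iff_ne_zero.mpr hnot
  set z : Fin nn → ℂ := M⁻¹ *ᵥ (fun _ => -(b : ℂ)) with hz
  have hMz : M *ᵥ z = fun _ => -(b : ℂ) := by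
    rw [hz, Matrix.mulVec_mulVec, Matrix.mul_nonsing_inv _ hunit, Matrix.one_mulVec]
  have hsys : ∀ i : Fin nn, (1 + (b : ℂ) * Complex.I) * z i
      - ∑ j : Fin nn, ((P i j : ℝ) : ℂ) * z j = (b : ℂ) := by
    intro i
    have h1 := congrFun hMz i
    rw [hM, Matrix.sub_mulVec, Matrix.smul_mulVec, Matrix.one_mulVec] at h1
    simp only [Pi.sub_apply, Pi.smul_apply, smul_eq_mul] at h1
    have h2 : (cx P *ᵥ z) i = ∑ j : Fin nn, ((P i j : ℝ) : ℂ) * z j := rfl
    rw [h2] at h1
    linear_combination -h1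
  refine ⟨z, hsys, ?_⟩
  -- the error
  have herr : ∀ i : Fin nn, (1 + (b : ℂ) * Complex.I) * (z i - (u i : ℂ) * yh i)
      - ∑ j : Fin nn, ((P i j : ℝ) : ℂ) * (z j - (u j : ℂ) * yh j)
        = -((b : ℂ) / (u i : ℂ) * res i) := by
    intro i
    have h1 := hsys i
    have h2 := P_act i i.2 yh
    have h3 := lap i i.2
    have hu : (u i : ℂ) ≠ 0 := by exact_mod_cast (u_pos i).ne'
    have h4 : ∑ j : Fin nn, ((P i j : ℝ) : ℂ) * (z j - (u j : ℂ) * yh j)
        = ∑ j : Fin nn, ((P i j : ℝ) : ℂ) * z j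
          - ∑ j : Fin nn, ((p i j : ℝ) : ℂ) * ((u j : ℂ) * yh j) := by
      rw [← Finset.sum_sub_distrib]
      apply Finset.sum_congr rfl
      intro j _
      show ((p i j : ℝ) : ℂ) * _ = ((p i j : ℝ) : ℂ) * _ - _
      ring
    rw [h4, h2]
    have h5 : (b : ℂ) / (u i : ℂ) * ((gr i : ℂ) * (yh i - yh (i + 1))
        + (gl i : ℂ) * (yh i - yh (i - 1)))
        = b + (b : ℂ) / (u i : ℂ) * res i - b * Complex.I * (u i : ℂ) * yh i := by
      have h6 : (gr i : ℂ) * (yh i - yh (i + 1)) + (gl i : ℂ) * (yh i - yh (i - 1))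
          = (u i : ℂ) + res i - Complex.I * (u i : ℂ) ^ 2 * yh i := by
        linear_combination h3
      rw [h6]
      field_simp
    rw [h5]
    linear_combination h1
  have hbound := resolvent P (fun i j => by
      have := P_symm
      exact (this.apply i j).symm) b _ _ herr
  have hR : ∑ i : Fin nn, ‖-((b : ℂ) / (u i : ℂ) * res i)‖ ^ 2 ≤ b ^ 2 * (1 / 10 ^ 24) := by
    have h0 : (0 : ℝ) ≤ b ^ 2 * (1 / 10 ^ 28) := by positivity
    have h1 : ∀ i ∈ (Finset.univ : Finset (Fin nn)), ‖-((b : ℂ) / (u i : ℂ) * res i)‖ ^ 2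
        ≤ b ^ 2 * (1 / 10 ^ 28) := by
      intro i _
      rw [norm_neg, norm_mul, norm_div, Complex.norm_real, Complex.norm_real,
        Real.norm_of_nonneg hb.le, Real.norm_of_nonneg (u_pos i).le]
      -- for `i = 0,1,2` the residual vanishes and otherwise `u i = 1`
      obtain ⟨i, hi⟩ := i
      rcases i with _ | _ | _ | m
      · simp only [res, norm_zero, mul_zero]
        exact le_trans (by norm_num) h0
      · simp only [res, norm_zero, mul_zero]
        exact le_trans (by norm_num) h0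
      · simp only [res, norm_zero, mul_zero]
        exact le_trans (by norm_num) h0
      · have hu : u (m + 3) = 1 := rfl
        have hr := res_norm (m + 3) hi
        show (b / u (m + 3) * ‖res (m + 3)‖) ^ 2 ≤ _
        rw [hu, div_one, mul_pow]
        apply mul_le_mul_of_nonneg_left _ (by positivity)
        calc ‖res (m + 3)‖ ^ 2 ≤ (1 / 10 ^ 14) ^ 2 := pow_le_pow_left₀ (norm_nonneg _) hr 2
          _ ≤ 1 / 10 ^ 28 := by norm_num
    calc ∑ i : Fin nn, ‖-((b : ℂ) / (u i : ℂ) * res i)‖ ^ 2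
        ≤ ∑ _i : Fin nn, b ^ 2 * (1 / 10 ^ 28) := Finset.sum_le_sum h1
      _ = 1003 * (b ^ 2 * (1 / 10 ^ 28)) := by
          rw [Finset.sum_const, Finset.card_univ, Fintype.card_fin, nsmul_eq_mul]
          norm_num
      _ ≤ b ^ 2 * (1 / 10 ^ 24) := by
          have : 0 ≤ b ^ 2 := by positivity
          nlinarith
  intro i
  have hsum : ∑ i : Fin nn, ‖z i - (u i : ℂ) * yh i‖ ^ 2 ≤ 1 / 10 ^ 24 := by
    have h1 := le_trans hbound hR
    exact le_of_mul_le_mul_left h1 (by positivity)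
  have h1 : ‖z i - (u i : ℂ) * yh i‖ ^ 2 ≤ 1 / 10 ^ 24 := by
    refine le_trans ?_ hsum
    exact Finset.single_le_sum (f := fun i : Fin nn => ‖z i - (u i : ℂ) * yh i‖ ^ 2)
      (fun j _ => sq_nonneg _) (Finset.mem_univ i)
  have h2 : (1 / 10 ^ 24 : ℝ) = (1 / 10 ^ 12) ^ 2 := by norm_num
  rw [h2] at h1
  exact le_of_sq_le_sq h1 (by positivity)

end Pool.Agent.V11304.RC
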